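import Mathlib
import Pool.Agent.SphN.FinalS

/-!
MP_c6d336_gt, Q1: the least `n` such that `P(n)` holds is `3`.
-/

set_option autoImplicit false

namespace Pool.Agent.Results.MP_c6d336_gt.ExactValue

/-- The compact-open topology on the group `X ≃ₜ X` of all homeomorphisms of `X`: the topology
induced by the inclusion into the space `C(X, X)` of continuous maps, which carries the
compact-open topology. -/
def compactOpenTop (X : Type) [TopologicalSpace X] : TopologicalSpace (X ≃ₜ X) :=
  TopologicalSpace.induced (fun h => (⟨h, h.continuous⟩ : C(X, X))) inferInstance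

/-- The path component of the identity in `Homeo(X)`, for the compact-open topology. -/
def G (X : Type) [TopologicalSpace X] : Set (X ≃ₜ X) :=
  @pathComponent (X ≃ₜ X) (compactOpenTop X) (Homeomorph.refl X)

/-- The property `P(n)` for the space `X`: for all `A, B` in `G X` different from the identity
there are homeomorphisms `H 0, ..., H (n-1)` of `X` with
`B = (H 0 * A * (H 0)⁻¹) * ... * (H (n-1) * A * (H (n-1))⁻¹)`. Multiplication of homeomorphisms
is composition. -/
def P (X : Type) [TopologicalSpace X] (n : ℕ) : Prop :=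
  ∀ A ∈ G X, ∀ B ∈ G X, A ≠ Homeomorph.refl X → B ≠ Homeomorph.refl X →
    ∃ H : Fin n → (X ≃ₜ X), B = (List.ofFn fun i => H i * A * (H i)⁻¹).prod

theorem mem_G_iff {X : Type} [TopologicalSpace X] [CompactSpace X] [T2Space X] (f : X ≃ₜ X) :
    f ∈ G X ↔ SphN.Isot f := by
  let _ := compactOpenTop X
  rw [SphN.isot_iff_joined]
  constructor
  · rintro ⟨p⟩
    refine ⟨fun t => p t, ?_, p.source, p.target⟩
    have h1 : Continuous (fun h : X ≃ₜ X => (⟨h, h.continuous⟩ : C(X, X))) :=
      continuous_induced_dom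
    exact h1.comp p.continuous
  · rintro ⟨γ, hγ, h0, h1⟩
    exact ⟨{ toFun := γ, continuous_toFun := continuous_induced_rng.2 hγ, source' := h0,
             target' := h1 }⟩

theorem P_iff (n : ℕ) :
    P (Metric.sphere (0 : EuclideanSpace ℝ (Fin 3)) 1) n ↔ SphN.PN (OnePoint ℂ) n := by
  have e : OnePoint ℂ ≃ₜ Metric.sphere (0 : EuclideanSpace ℝ (Fin 3)) 1 :=
    onePointEquivSphereOfFinrankEq (V := ℂ) (ι := Fin 3)
    (by simp [Complex.finrank_real_complex])
  rw [SphN.pn_congr e n]
  constructor
  · intro h A B hA hB hA1 hB1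
    exact h A ((mem_G_iff A).2 hA) B ((mem_G_iff B).2 hB) hA1 hB1
  · intro h A hA B hB hA1 hB1
    exact h A B ((mem_G_iff A).1 hA) ((mem_G_iff B).1 hB) hA1 hB1

/-- The least `n ≥ 1` for which `P(n)` holds for the 2-sphere is `3`. -/
theorem result :
    IsLeast {n : ℕ | 1 ≤ n ∧ P (Metric.sphere (0 : EuclideanSpace ℝ (Fin 3)) 1) n} 3 := by
  constructor
  · exact ⟨by norm_num, (P_iff 3).2 SphN.pn_three⟩
  · rintro n ⟨hn, hP⟩
    by_contra hlt
    have h2 : n = 1 ∨ n = 2 := by omega
    rcases h2 with rfl | rfl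
    · exact SphN.not_pn_one ((P_iff 1).1 hP)
    · exact SphN.not_pn_two ((P_iff 2).1 hP)

end Pool.Agent.Results.MP_c6d336_gt.ExactValue
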